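import Pool.Agent.W312.WT.StmP

set_option autoImplicit false

namespace Pool.Agent.W371.WT.PSize

open Pool.Agent.W312.WT Pool.Agent.NPC

theorem length_tabE (U : List Key) (T : List Ent) : (tabE U T).length ≤ U.length := by
  unfold tabE
  induction U with
  | nil => simp
  | cons k U ih =>
    rw [List.flatMap_cons, List.length_append, List.length_cons]
    have h1 : ((best (T.filter fun e => decide (e.1 = k))).toList).length ≤ 1 := by
      cases best (T.filter fun e => decide (e.1 = k)) <;> simp
    omega

theorem proof_PSize : Pool.Agent.W312.WT.PSize := by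
  intro hT hK hC
  obtain ⟨hK1, hK2⟩ := hK
  obtain ⟨bk, hbk⟩ := hK1.sz_le
  obtain ⟨bi, hbi⟩ := hK2.sz_le
  obtain ⟨bc, hbc⟩ := hC.sz_le
  refine ⟨bi + bk * (bk + Polynomial.X * (Polynomial.X + bc + 1) + 3) + 1,
    fun p L P hP hPL hlen => ?_⟩
  have k1 := hbk (p, L)
  have k2 := hbi (p, L)
  have k3 := hbc (p, L)
  simp only at k1 k2 k3
  have hLN : sz L < sz (p, L) := by rw [sz_pair]; omega
  have hLl := length_lt_sz L
  simp only [Polynomial.eval_add, Polynomial.eval_mul, Polynomial.eval_X, Polynomial.eval_one,
    Polynomial.eval_ofNat]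
  generalize sz (p, L) = N at k1 k2 k3 hLN
  generalize Polynomial.eval N bk = K at k1 ⊢
  generalize Polynomial.eval N bi = I at k2 ⊢
  generalize Polynomial.eval N bc = C at k3 ⊢
  have hent : ∀ e ∈ table p L P, sz e ≤ K + N * (N + C + 1) + 2 := by
    intro e he
    obtain ⟨hg, hk, hc⟩ := hT p L P hP hPL e he
    have h1 : sz e = sz e.1 + sz e.2 + 1 := sz_pair e.1 e.2
    have h2 : sz e.1 < K := (sz_le_of_mem hk).trans_le k1
    have hperm := hg.1
    have h3 : e.2.length ≤ L.length := by
      have h4 := hperm.length_eq
      rw [List.length_map] at h4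
      have h5 := List.length_filter_le (inR e.1.1.1 e.1.1.2) P.reverse
      rw [List.length_reverse] at h5
      omega
    have h6 : ∀ q ∈ e.2, sz q ≤ N + C := by
      intro q hq
      have h7 : q.1 ∈ e.2.map Prod.fst := List.mem_map_of_mem hq
      have h8 := hperm.mem_iff.1 h7
      have h9 : q.1 ∈ L := hPL _ (List.mem_reverse.1 (List.mem_of_mem_filter h8))
      have h10 := sz_le_of_mem h9
      have h11 := sz_le_of_mem (hc q hq)
      have h12 : sz q = sz q.1 + sz q.2 + 1 := sz_pair q.1 q.2
      omega
    have h7 := sz_le_length_mul e.2 (N + C) h6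
    have h8 : e.2.length * (N + C + 1) ≤ N * (N + C + 1) :=
      Nat.mul_le_mul_right _ (by omega)
    omega
  rcases List.eq_nil_or_concat P with hP0 | ⟨P', x, hP'⟩
  · subst hP0
    have : table p L [] = initE L.length (cands p L) (ths L) := rfl
    rw [this]
    omega
  · have hlt : (table p L P).length ≤ K := by
      have : table p L P = tabE (keys L.length (cands p L) (ths L)) (stepE p x (table p L P')) := by
        rw [hP']
        unfold table
        simp
      rw [this]
      have h1 := length_tabE (keys L.length (cands p L) (ths L)) (stepE p x (table p L P'))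
      have h2 := length_lt_sz (keys L.length (cands p L) (ths L))
      omega
    have h3 := sz_le_length_mul (table p L P) _ hent
    have h4 : (table p L P).length * (K + N * (N + C + 1) + 2 + 1) ≤
        K * (K + N * (N + C + 1) + 2 + 1) := Nat.mul_le_mul_right _ hlt
    have h5 : K * (K + N * (N + C + 1) + 2 + 1) = K * (K + N * (N + C + 1) + 3) := by ring
    omega

end Pool.Agent.W371.WT.PSize
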